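import Mathlib
import Pool.Agent.Y381.UC.Defs

set_option autoImplicit false

/-! The inequality for the quadratic form of a signed cycle. -/

open Finset

namespace Pool.Agent.Y465.UC

theorem sin_pos' {L i : ℕ} (h1 : 1 ≤ i) (h2 : i + 1 ≤ L) : 0 < Real.sin (i * (Real.pi / L)) := by
  have hL : (0 : ℝ) < L := by exact_mod_cast (by omega : 0 < L)
  have hi : (0 : ℝ) < i := by exact_mod_cast (by omega : 0 < i)
  have hiL : (i : ℝ) < L := by exact_mod_cast (by omega : i < L)
  apply Real.sin_pos_of_pos_of_lt_pi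
  · have := Real.pi_pos
    positivity
  · have h3 : (i : ℝ) * (Real.pi / L) = Real.pi * (i / L) := by ring
    rw [h3]
    have h4 : (i : ℝ) / L < 1 := by rw [div_lt_one hL]; exact hiL
    nlinarith [Real.pi_pos]

theorem sin_nonneg' {L i : ℕ} (h2 : i ≤ L) : 0 ≤ Real.sin (i * (Real.pi / L)) := by
  rcases Nat.eq_zero_or_pos L with h | hpos
  · have hi : i = 0 := by omega
    subst hi
    simp
  have hL : (0 : ℝ) < L := by exact_mod_cast hpos
  have hiL : (i : ℝ) ≤ L := by exact_mod_cast h2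
  apply Real.sin_nonneg_of_nonneg_of_le_pi
  · have := Real.pi_pos
    positivity
  · have h3 : (i : ℝ) * (Real.pi / L) = Real.pi * (i / L) := by ring
    rw [h3]
    have h4 : (i : ℝ) / L ≤ 1 := by rw [div_le_one hL]; exact hiL
    nlinarith [Real.pi_pos]

theorem amgm {A B a b : ℝ} (hA : 0 < A) (hB : 0 < B) :
    2 * (a * b) ≤ B / A * a ^ 2 + A / B * b ^ 2 := by
  have h1 : B / A * a ^ 2 + A / B * b ^ 2 - 2 * (a * b) = (B * a - A * b) ^ 2 / (A * B) := by
    field_simp
    ring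
  have h2 : 0 ≤ (B * a - A * b) ^ 2 / (A * B) := by positivity
  linarith

theorem t_QF : Pool.Agent.Y381.UC.S_QF := by
  intro n L t _ a j ha hj1 hjL ht hnt
  obtain ⟨φ, hφ⟩ : ∃ φ : ℕ → ℝ, φ = fun i : ℕ => Real.sin ((i : ℝ) * (Real.pi / L)) := ⟨_, rfl⟩
  have hpos : ∀ v, 0 < φ (j v) := by
    intro v
    rw [hφ]
    exact sin_pos' (hj1 v) (hjL v)
  have hnn : ∀ v, 0 ≤ φ (j v + 1) := by
    intro v
    rw [hφ]
    exact sin_nonneg' (hjL v)
  have hφ0 : φ 0 = 0 := by rw [hφ]; simp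
  have hrec : ∀ v, φ (j v + 1) / φ (j v) + φ (j v - 1) / φ (j v) =
      2 * Real.cos (Real.pi / L) := by
    intro v
    rw [← add_div, div_eq_iff (hpos v).ne']
    obtain ⟨m, hm⟩ : ∃ m, j v = m + 1 := ⟨j v - 1, by have := hj1 v; omega⟩
    rw [hm, Nat.add_sub_cancel, hφ]
    simp only
    have e1 : ((m + 1 + 1 : ℕ) : ℝ) * (Real.pi / L) =
        ((m + 1 : ℕ) : ℝ) * (Real.pi / L) + Real.pi / L := by push_cast; ring
    have e2 : ((m : ℕ) : ℝ) * (Real.pi / L) =
        ((m + 1 : ℕ) : ℝ) * (Real.pi / L) - Real.pi / L := by push_cast; ring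
    rw [e1, e2, Real.sin_add, Real.sin_sub]
    ring
  have hterm : ∀ v, 2 * ((if t v then (1 : ℝ) else -1) * (a v * a (v + 1))) ≤
      φ (j v + 1) / φ (j v) * a v ^ 2 +
        φ (j (v + 1) - 1) / φ (j (v + 1)) * a (v + 1) ^ 2 := by
    intro v
    by_cases h : t v
    · rw [if_pos h, one_mul, ht v h, Nat.add_sub_cancel]
      have h2 := hpos (v + 1)
      rw [ht v h] at h2
      exact amgm (hpos v) h2
    · rw [if_neg h, hnt v h, Nat.sub_self, hφ0, zero_div, zero_mul, add_zero]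
      have h1 : 0 ≤ φ (j v + 1) / φ (j v) * a v ^ 2 :=
        mul_nonneg (div_nonneg (hnn v) (hpos v).le) (sq_nonneg _)
      have h2 : 0 ≤ a v * a (v + 1) := mul_nonneg (ha v) (ha (v + 1))
      linarith
  rw [Finset.mul_sum]
  refine (Finset.sum_le_sum fun v _ => hterm v).trans ?_
  rw [Finset.sum_add_distrib]
  have hshift := Equiv.sum_comp (Equiv.addRight (1 : Fin (n + 4)))
    (fun v => φ (j v - 1) / φ (j v) * a v ^ 2)
  simp only [Equiv.coe_addRight] at hshift
  rw [hshift, ← Finset.sum_add_distrib, Finset.mul_sum]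
  refine le_of_eq (Finset.sum_congr rfl fun v _ => ?_)
  rw [← add_mul, hrec v]

end Pool.Agent.Y465.UC
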